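import Pool.Agent.H70.TGS.Targets

/-!
# Board `tgs_modules`, row `TRE`: many small numbers reach `1`
-/

set_option autoImplicit false

open List Pool.Agent.H68.TG Pool.Agent.H70.TGS

namespace Pool.Agent.H41.TGS

/-- the exponent of two -/
theorem pow_odd_inj {m n o o' : ℕ} (ho : Odd o) (ho' : Odd o')
    (h : 2 ^ m * o = 2 ^ n * o') : m = n := by
  have key : ∀ {m n o o' : ℕ}, Odd o → Odd o' → 2 ^ m * o = 2 ^ n * o' → ¬ m < n := by
    intro m n o o' ho ho' h hlt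
    obtain ⟨k, rfl⟩ := Nat.exists_eq_add_of_lt hlt
    have h1 : 2 ^ m * o = 2 ^ m * (2 * (2 ^ k * o')) := by
      rw [h]; ring
    have h2 : o = 2 * (2 ^ k * o') := Nat.eq_of_mul_eq_mul_left (by positivity) h1
    rw [h2] at ho
    exact (Nat.not_odd_iff_even.2 (even_two_mul _)) ho
  have h1 := key ho ho' h
  have h2 := key ho' ho h.symm
  omega

theorem exists_pre (z : ℕ) (hz : 1 ≤ z) (h3 : ¬ 3 ∣ z) :
    ∃ i y : ℕ, 1 ≤ i ∧ i ≤ 6 ∧ 3 * y + 1 = 2 ^ i * z ∧ ¬ 3 ∣ y ∧ Odd y := by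
  have h9 : z % 9 = 1 ∨ z % 9 = 2 ∨ z % 9 = 4 ∨ z % 9 = 5 ∨ z % 9 = 7 ∨ z % 9 = 8 := by omega
  have build : ∀ i : ℕ, 1 ≤ i → i ≤ 6 → (2 ^ i * z) % 9 = 4 → 2 ∣ 2 ^ i * z →
      ∃ i y : ℕ, 1 ≤ i ∧ i ≤ 6 ∧ 3 * y + 1 = 2 ^ i * z ∧ ¬ 3 ∣ y ∧ Odd y := by
    intro i h1 h6 h4 h2
    refine ⟨i, (2 ^ i * z) / 3, h1, h6, by omega, by omega, ?_⟩
    rw [Nat.odd_iff]
    omega
  rcases h9 with h | h | h | h | h | h
  · exact build 2 (by norm_num) (by norm_num) (by norm_num; omega) (by norm_num; omega)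
  · exact build 1 (by norm_num) (by norm_num) (by norm_num; omega) (by norm_num)
  · exact build 6 (by norm_num) (by norm_num) (by norm_num; omega) (by norm_num; omega)
  · exact build 3 (by norm_num) (by norm_num) (by norm_num; omega) (by norm_num; omega)
  · exact build 4 (by norm_num) (by norm_num) (by norm_num; omega) (by norm_num; omega)
  · exact build 5 (by norm_num) (by norm_num) (by norm_num; omega) (by norm_num; omega)

/-- Many small numbers reach `1`. -/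
theorem pf_TRE (hRCB : T_RCB) : T_TRE := by
  classical
  obtain ⟨hA, hB, hC, -⟩ := hRCB
  have hex : ∀ z : ℕ, ∃ i y : ℕ, 1 ≤ z → ¬ 3 ∣ z →
      1 ≤ i ∧ i ≤ 6 ∧ 3 * y + 1 = 2 ^ i * z ∧ ¬ 3 ∣ y ∧ Odd y := by
    intro z
    by_cases h : 1 ≤ z ∧ ¬ 3 ∣ z
    · obtain ⟨i, y, hiy⟩ := exists_pre z h.1 h.2
      exact ⟨i, y, fun _ _ => hiy⟩
    · exact ⟨0, 0, fun h1 h2 => absurd ⟨h1, h2⟩ h⟩
  choose i f hf using hex
  suffices H : ∀ d : ℕ, ∃ Z : Finset ℕ, Z.card = 2 ^ d ∧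
      ∀ z ∈ Z, 1 ≤ z ∧ z ≤ 64 ^ d ∧ ¬ 3 ∣ z ∧ Reach z ∧ ∃ a o, Odd o ∧ z = 2 ^ (6 * a) * o by
    intro d
    obtain ⟨Z, h1, h2⟩ := H d
    exact ⟨Z, h1, fun z hz => ⟨(h2 z hz).1, (h2 z hz).2.1, (h2 z hz).2.2.1, (h2 z hz).2.2.2.1⟩⟩
  intro d
  induction d with
  | zero =>
    refine ⟨{1}, by simp, ?_⟩
    intro z hz
    rw [Finset.mem_singleton] at hz
    subst hz
    exact ⟨le_refl _, by simp, by norm_num, ⟨0, by simp⟩, 0, 1, odd_one, by simp⟩
  | succ d ih =>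
    obtain ⟨Z, hc, hZ⟩ := ih
    have hf' : ∀ z ∈ Z, 1 ≤ i z ∧ i z ≤ 6 ∧ 3 * f z + 1 = 2 ^ i z * z ∧ ¬ 3 ∣ f z ∧ Odd (f z) :=
      fun z hz => hf z (hZ z hz).1 (hZ z hz).2.2.1
    have inj0 : Set.InjOn (fun z : ℕ => 64 * z) (↑Z : Set ℕ) := by
      intro z _ w _ h
      simpa using h
    have inj1 : Set.InjOn f (↑Z : Set ℕ) := by
      intro z hz w hw h
      have hz' := hf' z hz
      have hw' := hf' w hw
      obtain ⟨a, o, ho, hzo⟩ := (hZ z hz).2.2.2.2
      obtain ⟨b, o', ho', hwo⟩ := (hZ w hw).2.2.2.2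
      have h1 : 2 ^ i z * z = 2 ^ i w * w := by
        rw [← hz'.2.2.1, ← hw'.2.2.1, h]
      have h2 : 2 ^ (i z + 6 * a) * o = 2 ^ (i w + 6 * b) * o' := by
        rw [pow_add, pow_add, mul_assoc, mul_assoc, ← hzo, ← hwo]
        exact h1
      have h3 := pow_odd_inj ho ho' h2
      have h4 : i z = i w := by
        have := hz'.1
        have := hz'.2.1
        have := hw'.1
        have := hw'.2.1
        omega
      rw [h4] at h1
      exact Nat.eq_of_mul_eq_mul_left (by positivity) h1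
    have hdis : Disjoint (Z.image (fun z : ℕ => 64 * z)) (Z.image f) := by
      rw [Finset.disjoint_left]
      intro y h0 h1
      obtain ⟨z, _, rfl⟩ := Finset.mem_image.1 h0
      obtain ⟨w, hw, hw'⟩ := Finset.mem_image.1 h1
      have h2 := (hf' w hw).2.2.2.2
      rw [hw', Nat.odd_iff] at h2
      omega
    refine ⟨Z.image (fun z : ℕ => 64 * z) ∪ Z.image f, ?_, ?_⟩
    · rw [Finset.card_union_of_disjoint hdis, Finset.card_image_of_injOn inj0,
        Finset.card_image_of_injOn inj1, hc]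
      ring
    · intro y hy
      rcases Finset.mem_union.1 hy with h | h
      · obtain ⟨z, hz, rfl⟩ := Finset.mem_image.1 h
        obtain ⟨h1, h2, h3, h4, a, o, ho, hzo⟩ := hZ z hz
        refine ⟨?_, ?_, ?_, ?_, a + 1, o, ho, ?_⟩
        · change 1 ≤ 64 * z
          omega
        · change 64 * z ≤ 64 ^ (d + 1)
          rw [pow_succ]
          omega
        · change ¬ 3 ∣ 64 * z
          omega
        · have h6 := (hC 6 z).2 h4
          norm_num at h6
          exact h6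
        · change 64 * z = 2 ^ (6 * (a + 1)) * o
          rw [hzo, mul_add, pow_add]
          ring
      · obtain ⟨z, hz, rfl⟩ := Finset.mem_image.1 h
        obtain ⟨h1, h2, h3, h4, -⟩ := hZ z hz
        obtain ⟨g1, g2, g3, g4, g5⟩ := hf' z hz
        have hpow : 2 ^ i z ≤ 64 := by
          calc 2 ^ i z ≤ 2 ^ 6 := Nat.pow_le_pow_right (by norm_num) g2
            _ = 64 := by norm_num
        have hmul : 2 ^ i z * z ≤ 64 * z := Nat.mul_le_mul_right z hpow
        refine ⟨?_, ?_, g4, ?_, 0, f z, g5, by simp⟩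
        · obtain ⟨k, hk⟩ := g5
          omega
        · rw [pow_succ]
          omega
        · rw [← hB (f z) g5, g3, hC]
          exact h4

end Pool.Agent.H41.TGS
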